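import Mathlib

set_option autoImplicit false

open Filter

namespace Pool.Agent.W_MP_711e27_co

/-- The integer square root has all the properties needed, for large `n`. -/
lemma sqrt_props (d : ℝ) (hd : 0 < d) : ∃ n₀ : ℕ, ∀ n : ℕ, n₀ ≤ n →
    1024 ≤ Nat.sqrt n ∧ 6 * Nat.sqrt n ≤ n ∧
    2 * (Nat.sqrt n : ℝ) ≤ d * n / Real.log n ∧
    Real.log n / 3 ≤ Real.log (Nat.sqrt n) := by
  have h1 : ∀ᶠ x : ℝ in atTop, Real.log x ≤ d / 2 * x ^ ((1 : ℝ) / 2) := by
    have h2 := isLittleO_log_rpow_atTop (r := 1 / 2) (by norm_num)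
    have h3 := h2.bound (show (0 : ℝ) < d / 2 by positivity)
    filter_upwards [h3, eventually_ge_atTop (1 : ℝ)] with x hx hx1
    rw [Real.norm_of_nonneg (Real.log_nonneg hx1), Real.norm_of_nonneg (by positivity)] at hx
    exact hx
  have h2 : ∀ᶠ n : ℕ in atTop, Real.log n ≤ d / 2 * (n : ℝ) ^ ((1 : ℝ) / 2) :=
    tendsto_natCast_atTop_atTop.eventually h1
  obtain ⟨n₁, hn₁⟩ := eventually_atTop.1 h2
  refine ⟨max n₁ (1024 * 1024), fun n hn => ?_⟩
  have hn1 : n₁ ≤ n := le_trans (le_max_left _ _) hn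
  have hn2 : 1024 * 1024 ≤ n := le_trans (le_max_right _ _) hn
  have hs : 1024 ≤ Nat.sqrt n := Nat.le_sqrt.2 hn2
  have hsq : Nat.sqrt n * Nat.sqrt n ≤ n := Nat.sqrt_le n
  have hsq2 : n < (Nat.sqrt n + 1) * (Nat.sqrt n + 1) := Nat.lt_succ_sqrt n
  have hnpos : (0 : ℝ) < n := by exact_mod_cast (by omega : 0 < n)
  have hlog : 0 < Real.log n := Real.log_pos (by exact_mod_cast (by omega : 1 < n))
  refine ⟨hs, by nlinarith, ?_, ?_⟩
  · have h3 := hn₁ n hn1
    rw [← Real.sqrt_eq_rpow] at h3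
    have h4 : (Nat.sqrt n : ℝ) ≤ Real.sqrt n := Real.nat_sqrt_le_real_sqrt
    rw [le_div_iff₀ hlog]
    have h5 : Real.sqrt n * Real.sqrt n = n := Real.mul_self_sqrt hnpos.le
    calc 2 * (Nat.sqrt n : ℝ) * Real.log n ≤ 2 * Real.sqrt n * (d / 2 * Real.sqrt n) :=
          mul_le_mul (by linarith) h3 hlog.le (by positivity)
      _ = d * (Real.sqrt n * Real.sqrt n) := by ring
      _ = d * n := by rw [h5]
  · have h6 : (n : ℝ) ≤ (Nat.sqrt n : ℝ) ^ 3 := by
      have : n ≤ (Nat.sqrt n) ^ 3 := by nlinarith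
      exact_mod_cast this
    have h7 := Real.log_le_log hnpos h6
    rw [Real.log_pow] at h7
    push_cast at h7
    linarith

end Pool.Agent.W_MP_711e27_co
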