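import Mathlib

set_option autoImplicit false

/-!
Definitions used in the statement of the result on `MP_711e27_co`: graph minors, treewidth,
planarity (drawings in the plane by arcs), and the cycle packing number.
-/

namespace Pool.Agent.W_MP_711e27_co

/-- `H` is a minor of `G` (more precisely, `G` has a minor isomorphic to `H`): there are pairwise
disjoint nonempty vertex sets `B w` of `G`, one for each vertex `w` of `H`, each inducing a
connected subgraph of `G`, with an edge of `G` between `B w` and `B w'` whenever `w` and `w'` are
adjacent in `H`. (`SimpleGraph.Connected` includes being nonempty.) -/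
def IsMinor {W V : Type} (H : SimpleGraph W) (G : SimpleGraph V) : Prop :=
  ∃ B : W → Set V,
    (∀ w, (G.induce (B w)).Connected) ∧
    (∀ w w', w ≠ w' → Disjoint (B w) (B w')) ∧
    ∀ w w', H.Adj w w' → ∃ x ∈ B w, ∃ y ∈ B w', G.Adj x y

/-- `G` has a tree decomposition of width at most `k`: a finite tree `T` and for each node `t` of
`T` a set `bag t` of at most `k + 1` vertices of `G` such that each vertex and each edge of `G`
lies in some bag, and for each vertex `v` the nodes whose bag contains `v` are connected
in `T`. -/
def HasTreeDecomposition {V : Type} (G : SimpleGraph V) (k : ℕ) : Prop :=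
  ∃ (m : ℕ) (T : SimpleGraph (Fin m)) (bag : Fin m → Finset V),
    T.IsTree ∧
    (∀ v, ∃ t, v ∈ bag t) ∧
    (∀ u v, G.Adj u v → ∃ t, u ∈ bag t ∧ v ∈ bag t) ∧
    (∀ v, (T.induce {t | v ∈ bag t}).Preconnected) ∧
    ∀ t, (bag t).card ≤ k + 1

/-- The treewidth of a finite graph: the least width of a tree decomposition. -/
noncomputable def treewidth {V : Type} (G : SimpleGraph V) : ℕ :=
  sInf {k | HasTreeDecomposition G k}

/-- `H` is planar: it can be drawn in the plane. The vertices are distinct points `p w`, each
edge is drawn as a simple arc between its two ends (the arc `γ u v` for an edge `uv`), no arc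
passes through a vertex other than its ends, and the arcs of two different edges meet
only in common ends. -/
def IsPlanar {W : Type} (H : SimpleGraph W) : Prop :=
  ∃ (p : W → ℝ × ℝ) (γ : ∀ u v : W, Path (p u) (p v)),
    Function.Injective p ∧
    (∀ u v, H.Adj u v → Function.Injective (γ u v)) ∧
    (∀ u v, H.Adj u v → ∀ w, p w ∈ Set.range (γ u v) → w = u ∨ w = v) ∧
    ∀ u v u' v', H.Adj u v → H.Adj u' v' → s(u, v) ≠ s(u', v') →
      ∀ z ∈ Set.range (γ u v) ∩ Set.range (γ u' v'),
        ∃ w, (w = u ∨ w = v) ∧ (w = u' ∨ w = v') ∧ z = p w

/-- `H` has `k` pairwise vertex-disjoint cycles. -/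
def HasDisjointCycles {W : Type} (H : SimpleGraph W) (k : ℕ) : Prop :=
  ∃ (v : Fin k → W) (c : ∀ i, H.Walk (v i) (v i)),
    (∀ i, (c i).IsCycle) ∧
    ∀ i j, i ≠ j → List.Disjoint (c i).support (c j).support

/-- The largest number of pairwise vertex-disjoint cycles in the finite graph `H`. -/
noncomputable def cyclePacking {W : Type} (H : SimpleGraph W) : ℕ :=
  sSup {k | HasDisjointCycles H k}

end Pool.Agent.W_MP_711e27_co
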