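import Mathlib

set_option autoImplicit false

open Finset

namespace Pool.Agent.W_MP_711e27_co

lemma choose_le (n j : ℕ) (hj : 1 ≤ j) : (n.choose j : ℝ) ≤ (3 * n / j) ^ j := by
  have hj0 : (0 : ℝ) < j := by exact_mod_cast hj
  have h1 := Nat.choose_le_pow_div (α := ℝ) j n
  have h2 := Real.pow_div_factorial_le_exp (x := (j : ℝ)) hj0.le j
  have h3 : Real.exp j ≤ 3 ^ j := by
    rw [show (j : ℝ) = j * 1 by ring, Real.exp_nat_mul]
    exact pow_le_pow_left₀ (Real.exp_pos 1).le Real.exp_one_lt_three.le j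
  have h4 : ((n : ℝ) ^ j / (j.factorial : ℝ)) = ((n : ℝ) / j) ^ j * ((j : ℝ) ^ j / j.factorial) := by
    rw [div_pow]
    field_simp
  rw [h4] at h1
  refine h1.trans ?_
  have h5 : (3 * (n : ℝ) / j) ^ j = ((n : ℝ) / j) ^ j * 3 ^ j := by
    rw [← mul_pow]
    congr 1
    ring
  rw [h5]
  exact mul_le_mul_of_nonneg_left (h2.trans h3) (by positivity)

/-- The main estimate for sets of size `K`. -/
lemma term_le (N s t K : ℕ) (hN : 1 ≤ N) (hs : 1 ≤ s) (hK : 1 ≤ K) (hsK : s * K ≤ N) :
    (N.choose K : ℝ) * (((48 * N).choose (K + t) : ℝ) * (((K : ℝ) / N) ^ 2) ^ (K + t))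
      ≤ 432 ^ K * (144 / (s : ℝ)) ^ t := by
  have hN0 : (0 : ℝ) < N := by exact_mod_cast hN
  have hs0 : (0 : ℝ) < s := by exact_mod_cast hs
  have hK0 : (0 : ℝ) < K := by exact_mod_cast hK
  have h1 := choose_le N K hK
  have h2 := choose_le (48 * N) (K + t) (by omega)
  have hj0 : (0 : ℝ) < (K + t : ℕ) := by exact_mod_cast (by omega : 0 < K + t)
  have h3 : (((48 * N).choose (K + t) : ℝ) * (((K : ℝ) / N) ^ 2) ^ (K + t))
      ≤ (144 * K / N) ^ (K + t) := by
    refine (mul_le_mul_of_nonneg_right h2 (by positivity)).trans ?_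
    rw [← mul_pow]
    refine pow_le_pow_left₀ (by positivity) ?_ _
    have h4 : 3 * ((48 * N : ℕ) : ℝ) / (K + t : ℕ) * ((K : ℝ) / N) ^ 2
        = (144 * K / N) * (K / (K + t : ℕ)) := by
      push_cast
      field_simp
      ring
    rw [h4]
    refine mul_le_of_le_one_right (by positivity) ?_
    rw [div_le_one hj0]
    exact_mod_cast Nat.le_add_right K t
  have h5 : (144 * (K : ℝ) / N) ^ t ≤ (144 / (s : ℝ)) ^ t := by
    refine pow_le_pow_left₀ (by positivity) ?_ _
    rw [div_le_div_iff₀ hN0 hs0]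
    have : ((s * K : ℕ) : ℝ) ≤ N := by exact_mod_cast hsK
    push_cast at this
    nlinarith
  calc (N.choose K : ℝ) * (((48 * N).choose (K + t) : ℝ) * (((K : ℝ) / N) ^ 2) ^ (K + t))
      ≤ (3 * N / K) ^ K * (144 * K / N) ^ (K + t) :=
        mul_le_mul h1 h3 (by positivity) (by positivity)
    _ = 432 ^ K * (144 * K / N) ^ t := by
        rw [pow_add, ← mul_assoc, ← mul_pow]
        congr 2
        field_simp
        norm_num
    _ ≤ 432 ^ K * (144 / (s : ℝ)) ^ t := mul_le_mul_of_nonneg_left h5 (by positivity)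

section Counting

variable {N L : ℕ}

/-- The indices of the pairs inside `A`. -/
def inside (p : Fin L → Fin N × Fin N) (A : Finset (Fin N)) : Finset (Fin L) :=
  univ.filter fun i => (p i).1 ∈ A ∧ (p i).2 ∈ A

/-- Bad event: no pair goes from `A` to `B`. -/
def badOne (L : ℕ) (A B : Finset (Fin N)) : Finset (Fin L → Fin N × Fin N) :=
  Fintype.piFinset fun _ => (A ×ˢ B)ᶜ

lemma card_badOne_le (A B : Finset (Fin N)) (hA : N ≤ 4 * A.card) (hB : N ≤ 4 * B.card) :
    ((badOne L A B).card : ℝ) ≤ ((N : ℝ) ^ 2) ^ L * (15 / 16) ^ L := by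
  unfold badOne
  rw [Fintype.card_piFinset, prod_const, card_univ, Fintype.card_fin, Nat.cast_pow, ← mul_pow]
  refine pow_le_pow_left₀ (Nat.cast_nonneg _) ?_ _
  have h1 := card_compl (A ×ˢ B)
  rw [card_product, Fintype.card_prod, Fintype.card_fin] at h1
  have h2 : A.card * B.card ≤ N * N := by
    have hA' : A.card ≤ N := (card_le_univ A).trans (by simp)
    have hB' : B.card ≤ N := (card_le_univ B).trans (by simp)
    exact Nat.mul_le_mul hA' hB'
  have h3 : (((A ×ˢ B)ᶜ).card : ℝ) = N * N - A.card * B.card := by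
    rw [h1, Nat.cast_sub h2]
    push_cast
    ring
  rw [h3]
  have hA' : (N : ℝ) ≤ 4 * A.card := by exact_mod_cast hA
  have hB' : (N : ℝ) ≤ 4 * B.card := by exact_mod_cast hB
  have h4 : (N : ℝ) * N ≤ (4 * A.card) * (4 * B.card) :=
    mul_le_mul hA' hB' (Nat.cast_nonneg _) (by positivity)
  nlinarith

/-- Bad event: `A` contains at least `j` pairs. -/
def badTwo (L j : ℕ) (A : Finset (Fin N)) : Finset (Fin L → Fin N × Fin N) :=
  univ.filter fun p => j ≤ (inside p A).card

lemma card_badTwo_le (hN : 1 ≤ N) (j : ℕ) (A : Finset (Fin N)) :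
    ((badTwo L j A).card : ℝ)
      ≤ ((N : ℝ) ^ 2) ^ L * ((L.choose j : ℝ) * (((A.card : ℝ) / N) ^ 2) ^ j) := by
  classical
  have hN0 : (0 : ℝ) < N := by exact_mod_cast hN
  have hsub : badTwo L j A ⊆ (powersetCard j (univ : Finset (Fin L))).biUnion
      fun I => Fintype.piFinset fun i => if i ∈ I then A ×ˢ A else univ := by
    intro p hp
    have hp' : j ≤ (inside p A).card := (mem_filter.1 hp).2
    obtain ⟨I, hI, hIc⟩ := exists_subset_card_eq hp'
    refine mem_biUnion.2 ⟨I, mem_powersetCard.2 ⟨subset_univ _, hIc⟩, ?_⟩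
    rw [Fintype.mem_piFinset]
    intro i
    by_cases hi : i ∈ I
    · rw [if_pos hi, mem_product]
      exact (mem_filter.1 (hI hi)).2
    · rw [if_neg hi]
      exact mem_univ _
  have hcard : ∀ I ∈ powersetCard j (univ : Finset (Fin L)),
      ((Fintype.piFinset fun i => if i ∈ I then A ×ˢ A else univ :
        Finset (Fin L → Fin N × Fin N)).card : ℝ)
      = ((N : ℝ) ^ 2) ^ L * (((A.card : ℝ) / N) ^ 2) ^ j := by
    intro I hI
    rw [Fintype.card_piFinset, Nat.cast_prod]
    have h1 : ∀ i, (((if i ∈ I then A ×ˢ A else univ : Finset (Fin N × Fin N)).card : ℕ) : ℝ)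
        = (N : ℝ) ^ 2 * (if i ∈ I then ((A.card : ℝ) / N) ^ 2 else 1) := by
      intro i
      split_ifs
      · rw [card_product]
        push_cast
        field_simp
      · rw [card_univ, Fintype.card_prod, Fintype.card_fin]
        push_cast
        ring
    rw [prod_congr rfl fun i _ => h1 i, prod_mul_distrib, prod_const, card_univ, Fintype.card_fin,
      prod_ite_mem, univ_inter, prod_const, (mem_powersetCard.1 hI).2]
  have h1 : ((badTwo L j A).card : ℝ) ≤ ∑ I ∈ powersetCard j (univ : Finset (Fin L)),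
      ((Fintype.piFinset fun i => if i ∈ I then A ×ˢ A else univ :
        Finset (Fin L → Fin N × Fin N)).card : ℝ) := by
    exact_mod_cast (card_le_card hsub).trans card_biUnion_le
  rw [sum_congr rfl hcard, sum_const, card_powersetCard, card_univ, Fintype.card_fin,
    nsmul_eq_mul] at h1
  refine h1.trans (le_of_eq ?_)
  ring

/-- Existence of a good sequence of pairs. -/
lemma exists_good (N s t : ℕ) (hN : 1 ≤ N) (hs : 1 ≤ s)
    (h : 4 * 864 ^ (N / s) * 144 ^ t ≤ s ^ t) :
    ∃ p : Fin (48 * N) → Fin N × Fin N,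
      (∀ A B : Finset (Fin N), N ≤ 4 * A.card → N ≤ 4 * B.card →
        ∃ i, (p i).1 ∈ A ∧ (p i).2 ∈ B) ∧
      (∀ A : Finset (Fin N), 1 ≤ A.card → s * A.card ≤ N →
        (inside p A).card < A.card + t) := by
  classical
  have hN0 : (0 : ℝ) < N := by exact_mod_cast hN
  have hs0 : (0 : ℝ) < s := by exact_mod_cast hs
  set L := 48 * N with hL
  let P1 : Finset (Finset (Fin N) × Finset (Fin N)) :=
    univ.filter fun q => N ≤ 4 * q.1.card ∧ N ≤ 4 * q.2.card
  let P2 : Finset (Finset (Fin N)) := univ.filter fun A => 1 ≤ A.card ∧ s * A.card ≤ N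
  let bad : Finset (Fin L → Fin N × Fin N) :=
    (P1.biUnion fun q => badOne L q.1 q.2) ∪ (P2.biUnion fun A => badTwo L (A.card + t) A)
  have hb1 : ((P1.biUnion fun q => badOne L q.1 q.2).card : ℝ) ≤ ((N : ℝ) ^ 2) ^ L * (1 / 2) := by
    have h1 : ((P1.biUnion fun q => badOne L q.1 q.2).card : ℝ)
        ≤ ∑ q ∈ P1, ((badOne L q.1 q.2).card : ℝ) := by
      exact_mod_cast card_biUnion_le
    have h2 : ∑ q ∈ P1, ((badOne L q.1 q.2).card : ℝ)
        ≤ ∑ _q ∈ P1, ((N : ℝ) ^ 2) ^ L * (15 / 16) ^ L := by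
      refine sum_le_sum fun q hq => ?_
      have := (mem_filter.1 hq).2
      exact card_badOne_le q.1 q.2 this.1 this.2
    have h3 : (P1.card : ℝ) ≤ 4 ^ N := by
      have h4 : P1.card ≤ Fintype.card (Finset (Fin N) × Finset (Fin N)) := card_le_univ _
      rw [Fintype.card_prod, Fintype.card_finset, Fintype.card_fin, ← mul_pow] at h4
      exact_mod_cast h4
    rw [sum_const, nsmul_eq_mul] at h2
    refine (h1.trans h2).trans ?_
    have h5 : (P1.card : ℝ) * (((N : ℝ) ^ 2) ^ L * (15 / 16) ^ L)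
        ≤ 4 ^ N * (((N : ℝ) ^ 2) ^ L * (15 / 16) ^ L) :=
      mul_le_mul_of_nonneg_right h3 (by positivity)
    refine h5.trans ?_
    have h6 : (4 : ℝ) ^ N * (15 / 16) ^ L ≤ 1 / 2 := by
      rw [hL, pow_mul, ← mul_pow]
      have h7 : (4 : ℝ) * (15 / 16) ^ 48 ≤ 1 / 2 := by norm_num
      calc ((4 : ℝ) * (15 / 16) ^ 48) ^ N ≤ (1 / 2) ^ N :=
            pow_le_pow_left₀ (by positivity) h7 _
        _ ≤ (1 / 2) ^ 1 := pow_le_pow_of_le_one (by norm_num) (by norm_num) hN
        _ = 1 / 2 := by norm_num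
    calc (4 : ℝ) ^ N * (((N : ℝ) ^ 2) ^ L * (15 / 16) ^ L)
        = ((N : ℝ) ^ 2) ^ L * (4 ^ N * (15 / 16) ^ L) := by ring
      _ ≤ ((N : ℝ) ^ 2) ^ L * (1 / 2) := mul_le_mul_of_nonneg_left h6 (by positivity)
  have hb2 : ((P2.biUnion fun A => badTwo L (A.card + t) A).card : ℝ)
      ≤ ((N : ℝ) ^ 2) ^ L * (1 / 4) := by
    have h1 : ((P2.biUnion fun A => badTwo L (A.card + t) A).card : ℝ)
        ≤ ∑ A ∈ P2, ((badTwo L (A.card + t) A).card : ℝ) := by
      exact_mod_cast card_biUnion_le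
    refine h1.trans ?_
    let g : ℕ → ℝ := fun K => if 1 ≤ K ∧ s * K ≤ N then
      ((L.choose (K + t) : ℝ) * (((K : ℝ) / N) ^ 2) ^ (K + t)) else 0
    have h2 : ∑ A ∈ P2, ((badTwo L (A.card + t) A).card : ℝ)
        ≤ ∑ A ∈ (univ : Finset (Fin N)).powerset, ((N : ℝ) ^ 2) ^ L * g A.card := by
      have h3 : ∑ A ∈ P2, ((badTwo L (A.card + t) A).card : ℝ)
          ≤ ∑ A ∈ P2, ((N : ℝ) ^ 2) ^ L * g A.card := by
        refine sum_le_sum fun A hA => ?_
        have hA' := (mem_filter.1 hA).2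
        have h4 : g A.card = ((L.choose (A.card + t) : ℝ)
          * (((A.card : ℝ) / N) ^ 2) ^ (A.card + t)) := if_pos hA'
        rw [h4]
        exact card_badTwo_le hN _ A
      refine h3.trans (sum_le_sum_of_subset_of_nonneg (fun A _ => ?_) fun A _ _ => ?_)
      · rw [mem_powerset]; exact subset_univ _
      · have : 0 ≤ g A.card := by
          simp only [g]
          split_ifs
          · positivity
          · exact le_rfl
        positivity
    refine h2.trans ?_
    rw [← mul_sum]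
    refine mul_le_mul_of_nonneg_left ?_ (by positivity)
    rw [sum_powerset_apply_card g, card_univ, Fintype.card_fin]
    have h5 : ∑ m ∈ range (N + 1), N.choose m • g m
        ≤ ∑ m ∈ range (N / s + 1), (432 : ℝ) ^ (N / s) * (144 / (s : ℝ)) ^ t := by
      have h6 : ∑ m ∈ range (N + 1), N.choose m • g m
          ≤ ∑ m ∈ range (N + 1), if m ∈ range (N / s + 1) then
            (432 : ℝ) ^ (N / s) * (144 / (s : ℝ)) ^ t else 0 := by
        refine sum_le_sum fun m _ => ?_
        rw [nsmul_eq_mul]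
        simp only [g]
        by_cases hm : 1 ≤ m ∧ s * m ≤ N
        · have hm2 : m ≤ N / s := (Nat.le_div_iff_mul_le (by omega)).2 (by
            rw [mul_comm]; exact hm.2)
          rw [if_pos hm, if_pos (mem_range.2 (by omega))]
          refine (term_le N s t m hN hs hm.1 hm.2).trans ?_
          refine mul_le_mul_of_nonneg_right ?_ (by positivity)
          exact pow_le_pow_right₀ (by norm_num) hm2
        · rw [if_neg hm, mul_zero]
          split_ifs
          · positivity
          · exact le_rfl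
      refine h6.trans (le_of_eq ?_)
      rw [sum_ite_mem]
      congr 1
      rw [inter_eq_right]
      intro m hm
      rw [mem_range] at hm ⊢
      have := Nat.div_le_self N s
      omega
    refine h5.trans ?_
    rw [sum_const, card_range, nsmul_eq_mul]
    have h7 : ((N / s + 1 : ℕ) : ℝ) ≤ 2 ^ (N / s) := by
      have : N / s + 1 ≤ 2 ^ (N / s) := Nat.lt_two_pow_self
      exact_mod_cast this
    have h8 : (4 : ℝ) * 864 ^ (N / s) * 144 ^ t ≤ (s : ℝ) ^ t := by exact_mod_cast h
    calc ((N / s + 1 : ℕ) : ℝ) * ((432 : ℝ) ^ (N / s) * (144 / (s : ℝ)) ^ t)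
        ≤ 2 ^ (N / s) * ((432 : ℝ) ^ (N / s) * (144 / (s : ℝ)) ^ t) :=
          mul_le_mul_of_nonneg_right h7 (by positivity)
      _ = (864 : ℝ) ^ (N / s) * 144 ^ t / s ^ t := by
          rw [← mul_assoc, ← mul_pow, div_pow]
          norm_num
          ring
      _ ≤ 1 / 4 := by
          rw [div_le_iff₀ (by positivity)]
          linarith
  have hbad : (bad.card : ℝ) < ((N : ℝ) ^ 2) ^ L := by
    have h1 : (bad.card : ℝ) ≤ ((P1.biUnion fun q => badOne L q.1 q.2).card : ℝ)
        + ((P2.biUnion fun A => badTwo L (A.card + t) A).card : ℝ) := by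
      exact_mod_cast card_union_le _ _
    have h2 : (0 : ℝ) < ((N : ℝ) ^ 2) ^ L := by positivity
    linarith
  have hcard : bad.card < Fintype.card (Fin L → Fin N × Fin N) := by
    rw [Fintype.card_fun, Fintype.card_prod, Fintype.card_fin, Fintype.card_fin, ← sq]
    exact_mod_cast hbad
  obtain ⟨p, hp⟩ : ∃ p, p ∉ bad := by
    by_contra hcon
    push Not at hcon
    have : bad = univ := eq_univ_iff_forall.2 hcon
    rw [this, card_univ] at hcard
    exact lt_irrefl _ hcard
  refine ⟨p, ?_, ?_⟩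
  · intro A B hA hB
    by_contra hcon
    push Not at hcon
    refine hp (mem_union_left _ (mem_biUnion.2 ⟨(A, B), mem_filter.2 ⟨mem_univ _, hA, hB⟩, ?_⟩))
    unfold badOne
    rw [Fintype.mem_piFinset]
    intro i
    rw [mem_compl, mem_product]
    exact fun h => hcon i h.1 h.2
  · intro A hA hsA
    by_contra hcon
    push Not at hcon
    exact hp (mem_union_right _ (mem_biUnion.2 ⟨A, mem_filter.2 ⟨mem_univ _, hA, hsA⟩,
      mem_filter.2 ⟨mem_univ _, hcon⟩⟩))

end Counting

end Pool.Agent.W_MP_711e27_co
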