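import Mathlib
import Pool.Agent.W_MP_711e27_co.Defs
import Pool.Agent.W_MP_711e27_co.Random

set_option autoImplicit false

open Finset SimpleGraph

namespace Pool.Agent.W_MP_711e27_co

/-- The graph on `Fin n` whose components are copies of `K_{2,M-2}` (the last one
may be smaller): the integers below `n` are cut into blocks of length `M`, and the first two
elements of each block are joined to the other elements of the block. -/
def blocks (M n : ℕ) : SimpleGraph (Fin n) where
  Adj u v := u.1 / M = v.1 / M ∧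
    ((u.1 % M < 2 ∧ 2 ≤ v.1 % M) ∨ (v.1 % M < 2 ∧ 2 ≤ u.1 % M))
  symm := ⟨fun _ _ h => ⟨h.1.symm, h.2.symm⟩⟩
  loopless := ⟨fun _ h => by omega⟩

/-- The graph whose edges are the pairs of a sequence of pairs. -/
def pairGraph {N L : ℕ} (p : Fin L → Fin N × Fin N) : SimpleGraph (Fin N) where
  Adj u v := u ≠ v ∧ ∃ i, p i = (u, v) ∨ p i = (v, u)
  symm := ⟨fun _ _ h => ⟨h.1.symm, h.2.imp fun _ h => h.symm⟩⟩
  loopless := ⟨fun _ h => h.1 rfl⟩

lemma card_le_inside {N L : ℕ} (p : Fin L → Fin N × Fin N) (S : Finset (Fin N))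
    (h : ((pairGraph p).induce (S : Set (Fin N))).Connected) :
    S.card ≤ (inside p S).card + 1 := by
  classical
  have h1 := h.card_vert_le_card_edgeSet_add_one
  have h2 : Nat.card (S : Set (Fin N)) = S.card := by simp
  rw [h2] at h1
  refine h1.trans (Nat.add_le_add_right ?_ 1)
  have key : ∀ e : ((pairGraph p).induce (S : Set (Fin N))).edgeSet,
      ∃ i : inside p S, s((p i).1, (p i).2) = Sym2.map Subtype.val e.1 := by
    rintro ⟨e, he⟩
    induction e with
    | _ x y =>
      rw [mem_edgeSet] at he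
      obtain ⟨hne, i, hi⟩ := he
      rcases hi with hi | hi
      · refine ⟨⟨i, mem_filter.2 ⟨mem_univ _, ?_⟩⟩, ?_⟩
        · rw [hi]; exact ⟨x.2, y.2⟩
        · rw [hi]; rfl
      · refine ⟨⟨i, mem_filter.2 ⟨mem_univ _, ?_⟩⟩, ?_⟩
        · rw [hi]; exact ⟨y.2, x.2⟩
        · simp only [hi]; exact Sym2.eq_swap
  choose f hf using key
  have hinj : Function.Injective f := by
    intro e e' hee
    apply Subtype.ext
    apply Sym2.map.injective Subtype.val_injective
    rw [← hf e, ← hf e', hee]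
  have h3 := Nat.card_le_card_of_injective f hinj
  rwa [Nat.card_eq_fintype_card (α := inside p S), Fintype.card_coe] at h3

lemma sum_aux (M : ℕ) (hM : 2 ≤ M) :
    ∑ r ∈ range M, (if r < 2 then (-1 : ℤ) else 1) = M - 4 := by
  induction M, hM using Nat.le_induction with
  | base => simp [sum_range_succ]
  | succ n hn ih =>
    rw [sum_range_succ, ih, if_neg (by omega)]
    push_cast
    ring

lemma exists_dense (N L M n s : ℕ) (p : Fin L → Fin N × Fin N) (hM : 2 ≤ M) (hs : 1 ≤ s)
    (hn : s * M ≤ n) (h : IsMinor (blocks M n) (pairGraph p)) :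
    ∃ A : Finset (Fin N), 1 ≤ A.card ∧ s * A.card ≤ N ∧
      A.card + M ≤ (inside p A).card + 4 := by
  classical
  obtain ⟨B, hconn, hdisj, hadj⟩ := h
  let Bf : ℕ → Finset (Fin N) := fun k => univ.filter fun x => ∃ h : k < n, x ∈ B ⟨k, h⟩
  have hBf : ∀ k (hk : k < n) x, x ∈ Bf k ↔ x ∈ B ⟨k, hk⟩ := by
    intro k hk x
    simp only [Bf, mem_filter, mem_univ, true_and]
    exact ⟨fun ⟨_, h⟩ => h, fun h => ⟨hk, h⟩⟩
  have hBc : ∀ k (hk : k < n), (Bf k : Set (Fin N)) = B ⟨k, hk⟩ := by
    intro k hk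
    ext x
    exact hBf k hk x
  have F1 : ∀ k, k < n → (Bf k).card ≤ (inside p (Bf k)).card + 1 := by
    intro k hk
    apply card_le_inside
    rw [hBc k hk]
    exact hconn _
  have F1' : ∀ k, k < n → 1 ≤ (Bf k).card := by
    intro k hk
    obtain ⟨⟨x, hx⟩⟩ := (hconn ⟨k, hk⟩).nonempty
    exact card_pos.2 ⟨x, (hBf k hk x).2 hx⟩
  have F2 : ∀ k k' x, x ∈ Bf k → x ∈ Bf k' → k = k' := by
    intro k k' x hx hx'
    obtain ⟨hk, hx⟩ := (mem_filter.1 hx).2
    obtain ⟨hk', hx'⟩ := (mem_filter.1 hx').2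
    by_contra hne
    exact Set.disjoint_left.1 (hdisj ⟨k, hk⟩ ⟨k', hk'⟩ (by simpa using hne)) hx hx'
  have F3 : ∀ k (hk : k < n) k' (hk' : k' < n), (blocks M n).Adj ⟨k, hk⟩ ⟨k', hk'⟩ →
      ∃ i, ((p i).1 ∈ Bf k ∧ (p i).2 ∈ Bf k') ∨ ((p i).1 ∈ Bf k' ∧ (p i).2 ∈ Bf k) := by
    intro k hk k' hk' hkk
    obtain ⟨x, hx, y, hy, _, i, hi⟩ := hadj _ _ hkk
    refine ⟨i, ?_⟩
    rcases hi with hi | hi
    · left; rw [hi]; exact ⟨(hBf k hk x).2 hx, (hBf k' hk' y).2 hy⟩
    · right; rw [hi]; exact ⟨(hBf k' hk' y).2 hy, (hBf k hk x).2 hx⟩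
  let A : ℕ → Finset (Fin N) := fun q => (range M).biUnion fun r => Bf (q * M + r)
  have hlt : ∀ q, q < s → ∀ r, r < M → q * M + r < n := by
    intro q hq r hr
    have : (q + 1) * M ≤ s * M := Nat.mul_le_mul_right M hq
    have h2 : (q + 1) * M = q * M + M := by ring
    omega
  have hdec : ∀ q r q' r', r < M → r' < M → q * M + r = q' * M + r' → q = q' ∧ r = r' := by
    intro q r q' r' hr hr' he
    have h1 : (q * M + r) / M = q := by
      rw [mul_comm, Nat.mul_add_div (by omega), Nat.div_eq_of_lt hr, add_zero]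
    have h2 : (q' * M + r') / M = q' := by
      rw [mul_comm, Nat.mul_add_div (by omega), Nat.div_eq_of_lt hr', add_zero]
    have h3 : q = q' := by rw [← h1, ← h2, he]
    subst h3
    exact ⟨rfl, by omega⟩
  -- pigeonhole
  have hsum : ∑ q ∈ range s, (A q).card ≤ N := by
    rw [← card_biUnion]
    · exact (card_le_univ _).trans (by simp)
    · intro q _ q' _ hqq
      rw [Function.onFun, Finset.disjoint_left]
      intro x hx hx'
      obtain ⟨r, hr, hx⟩ := mem_biUnion.1 hx
      obtain ⟨r', hr', hx'⟩ := mem_biUnion.1 hx'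
      exact hqq (hdec q r q' r' (mem_range.1 hr) (mem_range.1 hr') (F2 _ _ x hx hx')).1
  obtain ⟨q, hq, hqN⟩ : ∃ q, q < s ∧ s * (A q).card ≤ N := by
    by_contra hcon
    push Not at hcon
    have h1 : ∑ q ∈ range s, (N + 1) ≤ ∑ q ∈ range s, s * (A q).card :=
      sum_le_sum fun q hq => hcon q (mem_range.1 hq)
    rw [← mul_sum, sum_const, card_range, smul_eq_mul] at h1
    have h2 := Nat.le_of_mul_le_mul_left h1 hs
    omega
  have hAcard : (A q).card = ∑ r ∈ range M, (Bf (q * M + r)).card := by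
    apply card_biUnion
    intro r hr r' hr' hrr
    rw [Function.onFun, Finset.disjoint_left]
    intro x hx hx'
    exact hrr (hdec q r q r' (mem_range.1 hr) (mem_range.1 hr') (F2 _ _ x hx hx')).2
  refine ⟨A q, ?_, hqN, ?_⟩
  · rw [hAcard]
    have h1 := F1' (q * M + 0) (hlt q hq 0 (by omega))
    refine h1.trans ?_
    exact single_le_sum (f := fun r => (Bf (q * M + r)).card) (fun _ _ => Nat.zero_le _)
      (mem_range.2 (by omega))
  -- the class function
  have hρ : ∃ ρ : Fin N → ℕ, (∀ r < M, ∀ x ∈ Bf (q * M + r), ρ x = r) := by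
    refine ⟨fun x => if h : ∃ r, r < M ∧ x ∈ Bf (q * M + r) then h.choose else 0, ?_⟩
    intro r hr x hx
    have hex : ∃ r, r < M ∧ x ∈ Bf (q * M + r) := ⟨r, hr, hx⟩
    beta_reduce
    rw [dif_pos hex]
    exact (hdec q _ q r hex.choose_spec.1 hr (F2 _ _ x hex.choose_spec.2 hx)).2
  obtain ⟨ρ, hρ⟩ := hρ
  have hsubA : ∀ r < M, Bf (q * M + r) ⊆ A q := fun r hr =>
    subset_biUnion_of_mem (fun r => Bf (q * M + r)) (mem_range.2 hr)
  let lab : Fin L → ℕ := fun i => max (ρ (p i).1) (ρ (p i).2)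
  have hfib : (inside p (A q)).card
      = ∑ r ∈ range M, ((inside p (A q)).filter fun i => lab i = r).card := by
    apply card_eq_sum_card_fiberwise
    intro i hi
    have hi' := (mem_filter.1 hi).2
    obtain ⟨r, hr, hx⟩ := mem_biUnion.1 hi'.1
    obtain ⟨r', hr', hx'⟩ := mem_biUnion.1 hi'.2
    have h1 := hρ r (mem_range.1 hr) _ hx
    have h2 := hρ r' (mem_range.1 hr') _ hx'
    simp only [lab, h1, h2, coe_range, Set.mem_Iio]
    exact max_lt (mem_range.1 hr) (mem_range.1 hr')
  have hJ : ∀ r < M, inside p (Bf (q * M + r)) ⊆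
      (inside p (A q)).filter fun i => lab i = r := by
    intro r hr i hi
    have hi' := (mem_filter.1 hi).2
    refine mem_filter.2 ⟨mem_filter.2 ⟨mem_univ _, hsubA r hr hi'.1, hsubA r hr hi'.2⟩, ?_⟩
    simp only [lab, hρ r hr _ hi'.1, hρ r hr _ hi'.2, max_self]
  have hlow : ∀ r < M, (((inside p (A q)).filter fun i => lab i = r).card : ℤ)
      ≥ (Bf (q * M + r)).card + (if r < 2 then (-1 : ℤ) else 1) := by
    intro r hr
    have h1 := F1 _ (hlt q hq r hr)
    by_cases hr2 : r < 2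
    · rw [if_pos hr2]
      have h2 := card_le_card (hJ r hr)
      omega
    · rw [if_neg hr2]
      have hcross : ∀ c, c < 2 → ∃ i,
          ((p i).1 ∈ Bf (q * M + r) ∧ (p i).2 ∈ Bf (q * M + c)) ∨
          ((p i).1 ∈ Bf (q * M + c) ∧ (p i).2 ∈ Bf (q * M + r)) := by
        intro c hc
        apply F3 _ (hlt q hq r hr) _ (hlt q hq c (by omega))
        have e1 : (q * M + r) / M = q := by
          rw [mul_comm, Nat.mul_add_div (by omega), Nat.div_eq_of_lt hr, add_zero]
        have e2 : (q * M + c) / M = q := by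
          rw [mul_comm, Nat.mul_add_div (by omega), Nat.div_eq_of_lt (by omega), add_zero]
        have e3 : (q * M + r) % M = r := by
          rw [mul_comm, Nat.mul_add_mod, Nat.mod_eq_of_lt hr]
        have e4 : (q * M + c) % M = c := by
          rw [mul_comm, Nat.mul_add_mod, Nat.mod_eq_of_lt (by omega)]
        refine ⟨?_, Or.inr ?_⟩
        · change (q * M + r) / M = (q * M + c) / M
          rw [e1, e2]
        · change (q * M + c) % M < 2 ∧ 2 ≤ (q * M + r) % M
          rw [e3, e4]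
          exact ⟨hc, by omega⟩
      obtain ⟨k0, hk0⟩ := hcross 0 (by omega)
      obtain ⟨k1, hk1⟩ := hcross 1 (by omega)
      have hpair : ∀ c, c < 2 → ∀ k,
          (((p k).1 ∈ Bf (q * M + r) ∧ (p k).2 ∈ Bf (q * M + c)) ∨
          ((p k).1 ∈ Bf (q * M + c) ∧ (p k).2 ∈ Bf (q * M + r))) →
          (k ∈ (inside p (A q)).filter fun i => lab i = r) ∧
          (ρ (p k).1 + ρ (p k).2 = r + c) := by
        intro c hc k hk
        have hcM : c < M := by omega
        rcases hk with ⟨ha, hb⟩ | ⟨ha, hb⟩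
        · refine ⟨mem_filter.2 ⟨mem_filter.2 ⟨mem_univ _, hsubA r hr ha, hsubA c hcM hb⟩, ?_⟩, ?_⟩
          · simp only [lab, hρ r hr _ ha, hρ c hcM _ hb]
            omega
          · rw [hρ r hr _ ha, hρ c hcM _ hb]
        · refine ⟨mem_filter.2 ⟨mem_filter.2 ⟨mem_univ _, hsubA c hcM ha, hsubA r hr hb⟩, ?_⟩, ?_⟩
          · simp only [lab, hρ c hcM _ ha, hρ r hr _ hb]
            omega
          · rw [hρ c hcM _ ha, hρ r hr _ hb, add_comm]
      obtain ⟨m0, s0⟩ := hpair 0 (by omega) k0 hk0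
      obtain ⟨m1, s1⟩ := hpair 1 (by omega) k1 hk1
      have hJs : ∀ i ∈ inside p (Bf (q * M + r)), ρ (p i).1 + ρ (p i).2 = r + r := by
        intro i hi
        have hi' := (mem_filter.1 hi).2
        rw [hρ r hr _ hi'.1, hρ r hr _ hi'.2]
      have n1 : k1 ∉ inside p (Bf (q * M + r)) := fun hmem => by
        have := hJs k1 hmem
        omega
      have n0 : k0 ∉ insert k1 (inside p (Bf (q * M + r))) := by
        rw [mem_insert]
        rintro (heq | hmem)
        · rw [heq] at s0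
          omega
        · have := hJs k0 hmem
          omega
      have hsub : insert k0 (insert k1 (inside p (Bf (q * M + r)))) ⊆
          (inside p (A q)).filter fun i => lab i = r := by
        intro i hi
        rw [mem_insert, mem_insert] at hi
        rcases hi with rfl | rfl | hi
        · exact m0
        · exact m1
        · exact hJ r hr hi
      have h2 := card_le_card hsub
      rw [card_insert_of_notMem n0, card_insert_of_notMem n1] at h2
      omega
  have hfin : ((inside p (A q)).card : ℤ) ≥ (A q).card + ((M : ℤ) - 4) := by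
    rw [hfib, hAcard, ← sum_aux M hM]
    push_cast
    rw [← sum_add_distrib]
    exact sum_le_sum fun r hr => hlow r (mem_range.1 hr)
  omega

/-- For suitable parameters there is a graph of large treewidth without `blocks M n` minor. -/
lemma exists_graph (N s M n : ℕ) (hN : 1 ≤ N) (hs : 1 ≤ s) (hM : 4 ≤ M) (hn : s * M ≤ n)
    (h : 4 * 864 ^ (N / s) * 144 ^ (M - 4) ≤ s ^ (M - 4)) :
    ∃ G : SimpleGraph (Fin N), ¬ IsMinor (blocks M n) G ∧
      ∀ A B : Finset (Fin N), Disjoint A B → N ≤ 4 * A.card → N ≤ 4 * B.card →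
        ∃ u ∈ A, ∃ v ∈ B, G.Adj u v := by
  obtain ⟨p, h1, h2⟩ := exists_good N s (M - 4) hN hs h
  refine ⟨pairGraph p, ?_, ?_⟩
  · intro hminor
    obtain ⟨A, hA1, hA2, hA3⟩ := exists_dense N _ M n s p (by omega) hs hn hminor
    have := h2 A hA1 hA2
    omega
  · intro A B hAB hA hB
    obtain ⟨i, hi1, hi2⟩ := h1 A B hA hB
    refine ⟨_, hi1, _, hi2, ?_, i, Or.inl rfl⟩
    intro he
    exact Finset.disjoint_left.1 hAB hi1 (he ▸ hi2)

end Pool.Agent.W_MP_711e27_co
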