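import Mathlib
import Pool.Agent.W_MP_711e27_co.Defs
import Pool.Agent.W_MP_711e27_co.Minor

set_option autoImplicit false

open SimpleGraph

namespace Pool.Agent.W_MP_711e27_co

/-! ### The cycle packing number of `blocks M n` -/

lemma exists_center_aux {M n : ℕ} {v : Fin n} (c : (blocks M n).Walk v v) (hc : c.IsCycle)
    (hv : 2 ≤ v.1 % M) : ∃ u ∈ c.support, u.1 % M = 0 := by
  by_contra hcon
  push Not at hcon
  have h1 : (blocks M n).Adj v c.snd := c.adj_snd hc.not_nil
  have h2 : (blocks M n).Adj c.penultimate v := c.adj_penultimate hc.not_nil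
  have h3 : c.snd ∈ c.support := c.getVert_mem_support 1
  have h4 : c.penultimate ∈ c.support := c.getVert_mem_support _
  have h5 := hcon _ h3
  have h6 := hcon _ h4
  have h7 : c.snd.1 % M = 1 := by
    obtain ⟨_, h | h⟩ := h1 <;> omega
  have h8 : c.penultimate.1 % M = 1 := by
    obtain ⟨_, h | h⟩ := h2 <;> omega
  have h9 : c.snd.1 = c.penultimate.1 := by
    rw [← Nat.div_add_mod c.snd.1 M, ← Nat.div_add_mod c.penultimate.1 M, h7, h8, ← h1.1, h2.1]
  exact hc.snd_ne_penultimate (Fin.ext h9)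

lemma exists_center {M n : ℕ} {v : Fin n} (c : (blocks M n).Walk v v) (hc : c.IsCycle) :
    ∃ u ∈ c.support, u.1 % M = 0 := by
  classical
  by_cases hv : 2 ≤ v.1 % M
  · exact exists_center_aux c hc hv
  · have h1 : (blocks M n).Adj v c.snd := c.adj_snd hc.not_nil
    have h3 : c.snd ∈ c.support := c.getVert_mem_support 1
    have h4 : 2 ≤ c.snd.1 % M := by
      obtain ⟨_, h | h⟩ := h1 <;> omega
    obtain ⟨u, hu, hu0⟩ := exists_center_aux (c.rotate c.snd h3) (hc.rotate h3) h4
    exact ⟨u, (Walk.mem_support_rotate_iff c c.snd h3).1 hu, hu0⟩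

lemma cyclePacking_blocks_le {M n s : ℕ} (hM : 1 ≤ M) (hn : n ≤ s * M) :
    cyclePacking (blocks M n) ≤ s := by
  unfold cyclePacking
  have hne : {k | HasDisjointCycles (blocks M n) k}.Nonempty :=
    ⟨0, Fin.elim0, fun i => i.elim0, fun i => i.elim0, fun i => i.elim0⟩
  refine csSup_le hne ?_
  rintro k ⟨v, c, hc, hdisj⟩
  choose u hu hu0 using fun i => exists_center (c i) (hc i)
  have hlt : ∀ i, (u i).1 / M < s := fun i =>
    (Nat.div_lt_iff_lt_mul (by omega)).2 (lt_of_lt_of_le (u i).2 hn)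
  have hinj : Function.Injective fun i => (⟨(u i).1 / M, hlt i⟩ : Fin s) := by
    intro i j hij
    have h1 : (u i).1 / M = (u j).1 / M := by simpa using hij
    have h2 : u i = u j := by
      apply Fin.ext
      rw [← Nat.div_add_mod (u i).1 M, ← Nat.div_add_mod (u j).1 M, hu0, hu0, h1]
    by_contra hne
    exact hdisj i j hne (hu i) (h2 ▸ hu j)
  have := Fintype.card_le_of_injective _ hinj
  simpa using this

/-! ### `blocks M n` is planar -/

/-- The height of a vertex in the drawing. -/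
def ht (M k : ℕ) : ℝ := if k % M = 0 then 1 else if k % M = 1 then -1 else 0

/-- The position of a vertex in the drawing. -/
def pos (M : ℕ) {n : ℕ} (k : Fin n) : ℝ × ℝ := (k.1, ht M k.1)

/-- The line segment from `a` to `b`. -/
noncomputable def seg (a b : ℝ × ℝ) : Path a b where
  toFun t := (a.1 + t * (b.1 - a.1), a.2 + t * (b.2 - a.2))
  continuous_toFun := by fun_prop
  source' := by simp
  target' := by simp

lemma seg_apply (a b : ℝ × ℝ) (t : unitInterval) :
    seg a b t = (a.1 + t * (b.1 - a.1), a.2 + t * (b.2 - a.2)) := rfl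

/-- Description of the points on the arc of an edge: the edge joins a centre `c` to another
vertex `x`. -/
lemma edge_cases {M n : ℕ} {u v : Fin n} (h : (blocks M n).Adj u v) :
    ∃ c x : Fin n, s(u, v) = s(c, x) ∧ c.1 / M = x.1 / M ∧ c.1 % M < 2 ∧ 2 ≤ x.1 % M ∧
      ∀ z ∈ Set.range (seg (pos M u) (pos M v)), ∃ τ : ℝ, 0 ≤ τ ∧ τ ≤ 1 ∧
        z = (c.1 + τ * (x.1 - c.1), ht M c.1 * (1 - τ)) := by
  have h0 : ∀ x : Fin n, 2 ≤ x.1 % M → ht M x.1 = 0 := by
    intro x hx
    unfold ht
    rw [if_neg (by omega), if_neg (by omega)]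
  obtain ⟨h1, h2 | h2⟩ := h
  · refine ⟨u, v, rfl, h1, h2.1, h2.2, ?_⟩
    rintro z ⟨t, rfl⟩
    refine ⟨t, t.2.1, t.2.2, ?_⟩
    rw [seg_apply]
    simp only [pos, h0 v h2.2, Prod.mk.injEq]
    refine ⟨?_, by ring⟩
    trivial
  · refine ⟨v, u, Sym2.eq_swap, h1.symm, h2.1, h2.2, ?_⟩
    rintro z ⟨t, rfl⟩
    refine ⟨1 - t, by linarith [t.2.2], by linarith [t.2.1], ?_⟩
    rw [seg_apply]
    simp only [pos, h0 u h2.2, Prod.mk.injEq]
    constructor <;> ring

lemma ht_center {M k : ℕ} (h : k % M < 2) : ht M k = 1 ∨ ht M k = -1 := by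
  unfold ht
  by_cases h0 : k % M = 0
  · left; rw [if_pos h0]
  · right; rw [if_neg h0, if_pos (by omega)]

lemma ht_cases (M k : ℕ) : ht M k = 1 ∨ ht M k = -1 ∨ ht M k = 0 := by
  unfold ht
  split_ifs <;> simp

lemma ht_inj {M k l : ℕ} (hk : k % M < 2) (hl : l % M < 2) (h : ht M k = ht M l) :
    k % M = l % M := by
  unfold ht at h
  split_ifs at h <;> first | omega | (exfalso; linarith)

lemma block_bounds {M : ℕ} (hM : 1 ≤ M) (k : ℕ) :
    ((k / M : ℕ) : ℝ) * M ≤ k ∧ (k : ℝ) ≤ ((k / M : ℕ) : ℝ) * M + (M - 1) := by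
  have h1 := Nat.div_add_mod k M
  have h2 : k % M ≤ M - 1 := by
    have := Nat.mod_lt k (show 0 < M by omega)
    omega
  have h3 : ((M : ℝ) * ((k / M : ℕ) : ℝ) + ((k % M : ℕ) : ℝ)) = k := by exact_mod_cast h1
  have h4 : ((k % M : ℕ) : ℝ) ≤ M - 1 := by
    have : ((k % M : ℕ) : ℝ) ≤ ((M - 1 : ℕ) : ℝ) := by exact_mod_cast h2
    rwa [Nat.cast_sub hM, Nat.cast_one] at this
  have h5 : (0 : ℝ) ≤ ((k % M : ℕ) : ℝ) := Nat.cast_nonneg _
  constructor <;> nlinarith

lemma isPlanar_blocks {M n : ℕ} (hM : 1 ≤ M) : IsPlanar (blocks M n) := by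
  refine ⟨pos M, fun u v => seg (pos M u) (pos M v), ?_, ?_, ?_, ?_⟩
  · intro u v h
    have h1 : (u.1 : ℝ) = v.1 := congrArg Prod.fst h
    exact Fin.ext (by exact_mod_cast h1)
  · intro u v huv t t' h
    have h1 : (u.1 : ℝ) + t * (v.1 - u.1) = u.1 + t' * (v.1 - u.1) := congrArg Prod.fst h
    have h2 : ((t : ℝ) - t') * (v.1 - u.1) = 0 := by linarith
    rcases mul_eq_zero.1 h2 with h3 | h3
    · exact Subtype.ext (by linarith)
    · exfalso
      have h4 : (v.1 : ℝ) = u.1 := by linarith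
      exact huv.ne (Fin.ext (by exact_mod_cast h4.symm))
  · intro u v huv w hw
    obtain ⟨c, x, hcx, hdiv, hc, hx, hz⟩ := edge_cases huv
    obtain ⟨τ, h0, h1, he⟩ := hz _ hw
    have e1 : (w.1 : ℝ) = c.1 + τ * (x.1 - c.1) := congrArg Prod.fst he
    have e2 : ht M w.1 = ht M c.1 * (1 - τ) := congrArg Prod.snd he
    have hwcx : w = c ∨ w = x := by
      have hτ : τ = 0 ∨ τ = 1 := by
        rcases ht_center hc with hh | hh <;> rw [hh] at e2 <;>
          rcases ht_cases M w.1 with hw | hw | hw <;> rw [hw] at e2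
        · left; linarith
        · exfalso; linarith
        · right; linarith
        · exfalso; linarith
        · left; linarith
        · right; linarith
      rcases hτ with rfl | rfl
      · left
        exact Fin.ext (by exact_mod_cast (by linarith : (w.1 : ℝ) = c.1))
      · right
        exact Fin.ext (by exact_mod_cast (by linarith : (w.1 : ℝ) = x.1))
    rw [Sym2.eq_iff] at hcx
    rcases hcx with ⟨rfl, rfl⟩ | ⟨rfl, rfl⟩
    · exact hwcx
    · exact hwcx.symm
  · rintro u v u' v' huv huv' hne z ⟨hz, hz'⟩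
    obtain ⟨c, x, hcx, hdiv, hc, hx, hzz⟩ := edge_cases huv
    obtain ⟨c', x', hcx', hdiv', hc', hx', hzz'⟩ := edge_cases huv'
    obtain ⟨τ, h0, h1, he⟩ := hzz _ hz
    obtain ⟨τ', h0', h1', he'⟩ := hzz' _ hz'
    have hee := he.symm.trans he'
    have e1 : (c.1 : ℝ) + τ * (x.1 - c.1) = c'.1 + τ' * (x'.1 - c'.1) := congrArg Prod.fst hee
    have e2 : ht M c.1 * (1 - τ) = ht M c'.1 * (1 - τ') := congrArg Prod.snd hee
    have key : ∃ w, (w = c ∨ w = x) ∧ (w = c' ∨ w = x') ∧ z = pos M w := by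
      have hx0 : ht M x.1 = 0 := by
        unfold ht
        rw [if_neg (by omega), if_neg (by omega)]
      by_cases hτ : τ = 1
      · subst hτ
        have hτ' : τ' = 1 := by
          rcases ht_center hc' with hh | hh <;> rw [hh] at e2 <;> linarith
        subst hτ'
        have hxx : x = x' := Fin.ext (by exact_mod_cast (by linarith : (x.1 : ℝ) = x'.1))
        refine ⟨x, Or.inr rfl, Or.inr hxx, ?_⟩
        rw [he]
        simp only [pos, hx0, Prod.mk.injEq]
        constructor <;> ring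
      · have hlt : 0 < 1 - τ := by
          rcases lt_or_eq_of_le h1 with h | h
          · linarith
          · exact absurd h hτ
        have hsign : ht M c.1 = ht M c'.1 ∧ τ = τ' := by
          rcases ht_center hc with hh | hh <;> rcases ht_center hc' with hh' | hh' <;>
            rw [hh, hh'] at e2 ⊢
          · exact ⟨rfl, by linarith⟩
          · exfalso; linarith
          · exfalso; linarith
          · exact ⟨rfl, by linarith⟩
        obtain ⟨hs, rfl⟩ := hsign
        -- the blocks agree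
        have b1 := block_bounds hM c.1
        have b2 := block_bounds hM x.1
        have b3 := block_bounds hM c'.1
        have b4 := block_bounds hM x'.1
        rw [← hdiv] at b2
        rw [← hdiv'] at b4
        have hq : c.1 / M = c'.1 / M := by
          have l1 : ((c.1 / M : ℕ) : ℝ) * M ≤ c.1 + τ * (x.1 - c.1) := by nlinarith
          have l2 : c.1 + τ * (x.1 - c.1) ≤ ((c.1 / M : ℕ) : ℝ) * M + (M - 1) := by nlinarith
          have l3 : ((c'.1 / M : ℕ) : ℝ) * M ≤ c'.1 + τ * (x'.1 - c'.1) := by nlinarith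
          have l4 : c'.1 + τ * (x'.1 - c'.1) ≤ ((c'.1 / M : ℕ) : ℝ) * M + (M - 1) := by nlinarith
          have hM0 : (1 : ℝ) ≤ M := by exact_mod_cast hM
          rcases lt_trichotomy (c.1 / M) (c'.1 / M) with hlt' | heq | hgt
          · exfalso
            have : ((c.1 / M : ℕ) : ℝ) + 1 ≤ ((c'.1 / M : ℕ) : ℝ) := by exact_mod_cast hlt'
            nlinarith
          · exact heq
          · exfalso
            have : ((c'.1 / M : ℕ) : ℝ) + 1 ≤ ((c.1 / M : ℕ) : ℝ) := by exact_mod_cast hgt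
            nlinarith
        have hcc : c = c' := by
          apply Fin.ext
          rw [← Nat.div_add_mod c.1 M, ← Nat.div_add_mod c'.1 M, hq, ht_inj hc hc' hs]
        subst hcc
        have h5 : τ * ((x.1 : ℝ) - x'.1) = 0 := by linarith
        rcases mul_eq_zero.1 h5 with h6 | h6
        · subst h6
          refine ⟨c, Or.inl rfl, Or.inl rfl, ?_⟩
          rw [he]
          simp only [pos, Prod.mk.injEq]
          constructor <;> ring
        · exfalso
          have hxx : x = x' := Fin.ext (by exact_mod_cast (by linarith : (x.1 : ℝ) = x'.1))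
          apply hne
          rw [hcx, hcx', hxx]
    obtain ⟨w, hw1, hw2, hw3⟩ := key
    refine ⟨w, ?_, ?_, hw3⟩
    · rw [Sym2.eq_iff] at hcx
      rcases hcx with ⟨rfl, rfl⟩ | ⟨rfl, rfl⟩
      · exact hw1
      · exact hw1.symm
    · rw [Sym2.eq_iff] at hcx'
      rcases hcx' with ⟨rfl, rfl⟩ | ⟨rfl, rfl⟩
      · exact hw2
      · exact hw2.symm

end Pool.Agent.W_MP_711e27_co
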