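import Mathlib
import Pool.Agent.W_MP_711e27_co.Defs

set_option autoImplicit false

open SimpleGraph

namespace Pool.Agent.W_MP_711e27_co

/-- The restriction of a graph to a set of vertices, as a graph on all vertices. -/
def restr {V : Type} (G : SimpleGraph V) (S : Set V) : SimpleGraph V where
  Adj x y := G.Adj x y ∧ x ∈ S ∧ y ∈ S
  symm := ⟨fun _ _ h => ⟨h.1.symm, h.2.2, h.2.1⟩⟩
  loopless := ⟨fun _ h => G.irrefl h.1⟩

lemma restr_mono {V : Type} (G : SimpleGraph V) {S S' : Set V} (h : S ⊆ S') :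
    restr G S ≤ restr G S' := fun _ _ hab => ⟨hab.1, h hab.2.1, h hab.2.2⟩

lemma reachable_restr_of_induce {V : Type} (G : SimpleGraph V) (S : Set V) {x y : V}
    (hx : x ∈ S) (hy : y ∈ S) (h : (G.induce S).Reachable ⟨x, hx⟩ ⟨y, hy⟩) :
    (restr G S).Reachable x y := by
  obtain ⟨p⟩ := h
  let f : G.induce S →g restr G S :=
    { toFun := Subtype.val
      map_rel' := fun {a b} hab => ⟨hab, a.2, b.2⟩ }
  exact ⟨p.map f⟩

/-- A family of pairwise intersecting connected sets `S t` of nodes of a tree, indexed by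
the nodes, has a member with `t ∈ S t`. -/
lemma tree_haven {m : ℕ} (T : SimpleGraph (Fin m)) (hT : T.IsTree) (S : Fin m → Set (Fin m))
    (hconn : ∀ t, ∀ x ∈ S t, ∀ y ∈ S t, (restr T (S t)).Reachable x y)
    (hne : ∀ t t', (S t ∩ S t').Nonempty) : ∃ t, t ∈ S t := by
  by_contra hcon
  push Not at hcon
  classical
  have hx : ∀ t, ∃ x, x ∈ S t := fun t => (hne t t).mono Set.inter_subset_left
  choose x hx using hx
  have hp : ∀ t, ∃ p : T.Walk t (x t), p.IsPath := fun t => (hT.existsUnique_path t (x t)).exists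
  choose p hp using hp
  have hnil : ∀ t, ¬ (p t).Nil := fun t h => hcon t (by
    have := h.eq
    rw [this]
    exact this ▸ hx t)
  let n : Fin m → Fin m := fun t => (p t).snd
  have hadj : ∀ t, T.Adj t (n t) := fun t => (p t).adj_snd (hnil t)
  have hreach : ∀ t, ∀ y ∈ S t, (T.deleteEdges {s(t, n t)}).Reachable (n t) y := by
    intro t y hy
    have h1 : (T.deleteEdges {s(t, n t)}).Reachable (n t) (x t) := by
      rw [reachable_deleteEdges_iff_exists_walk]
      refine ⟨(p t).tail, fun h => ?_⟩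
      have h2 := Walk.fst_mem_support_of_mem_edges _ h
      have h3 := (hp t).support_nodup
      rw [← Walk.cons_support_tail (hnil t), List.nodup_cons] at h3
      exact h3.1 h2
    have h2 : (T.deleteEdges {s(t, n t)}).Reachable (x t) y := by
      refine (hconn t _ (hx t) _ hy).mono ?_
      intro a b hab
      rw [deleteEdges_adj]
      refine ⟨hab.1, fun h => ?_⟩
      rw [Set.mem_singleton_iff, Sym2.eq_iff] at h
      rcases h with ⟨h, _⟩ | ⟨_, h⟩
      · exact hcon t (h ▸ hab.2.1)
      · exact hcon t (h ▸ hab.2.2)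
    exact h1.trans h2
  have hcard : Fintype.card T.edgeSet < Fintype.card (Fin m) := by
    have := hT.card_edgeFinset
    rw [← this, edgeFinset_card]
    exact Nat.lt_succ_self _
  obtain ⟨t, t', htt', he⟩ := Fintype.exists_ne_map_eq_of_card_lt
    (fun t => (⟨s(t, n t), hadj t⟩ : T.edgeSet)) hcard
  have he' : s(t, n t) = s(t', n t') := congrArg Subtype.val he
  have he2 := he'
  rw [Sym2.eq_iff] at he'
  rcases he' with ⟨h, _⟩ | ⟨h1, h2⟩
  · exact htt' h
  · obtain ⟨y, hy, hy'⟩ := hne t t'
    have r1 := hreach t y hy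
    have r2 := hreach t' y hy'
    rw [← he2, ← h1] at r2
    have hb := isAcyclic_iff_forall_adj_isBridge.1 hT.isAcyclic (hadj t)
    rw [isBridge_iff] at hb
    exact hb (r2.trans r1.symm)

/-- If `G` has a tree decomposition of small width then it has a balanced separation. -/
lemma exists_balanced {N : ℕ} (G : SimpleGraph (Fin N)) (k : ℕ)
    (h : HasTreeDecomposition G k) (hk : 4 * (k + 1) ≤ N) :
    ∃ A B : Finset (Fin N), Disjoint A B ∧ N ≤ 4 * A.card ∧ N ≤ 4 * B.card ∧
      ∀ u ∈ A, ∀ v ∈ B, ¬ G.Adj u v := by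
  classical
  obtain ⟨m, T, bag, hT, hv, he, hc, hw⟩ := h
  -- a node with no component of size more than N / 2
  have key : ∃ t, ∀ v, v ∉ bag t →
      2 * (Finset.univ.filter fun u => (restr G {u | u ∉ bag t}).Reachable v u).card ≤ N := by
    by_contra hcon
    push Not at hcon
    choose v hvt hbig using hcon
    let C : Fin m → Finset (Fin N) := fun t =>
      Finset.univ.filter fun u => (restr G {u | u ∉ bag t}).Reachable (v t) u
    have hC : ∀ t, ∀ u ∈ C t, u ∉ bag t := by
      intro t u hu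
      have h1 : (restr G {u | u ∉ bag t}).Reachable (v t) u := (Finset.mem_filter.1 hu).2
      obtain ⟨w⟩ := h1
      cases hw' : w.reverse with
      | nil => exact hvt t
      | cons hab q => exact hab.2.1
    let S : Fin m → Set (Fin m) := fun t => {x | ∃ u ∈ C t, u ∈ bag x}
    have hS1 : ∀ t, ∀ u ∈ C t, ∀ x, u ∈ bag x → ∀ y, u ∈ bag y →
        (restr T (S t)).Reachable x y := by
      intro t u hu x hx y hy
      have h1 := hc u ⟨x, hx⟩ ⟨y, hy⟩
      exact (reachable_restr_of_induce T _ hx hy h1).mono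
        (restr_mono T (fun z hz => ⟨u, hu, hz⟩))
    have hS2 : ∀ t, ∀ u, ∀ w : (restr G {u | u ∉ bag t}).Walk (v t) u,
        ∀ x, v t ∈ bag x → ∀ y, u ∈ bag y → (restr T (S t)).Reachable x y := by
      intro t u w
      have hmem : v t ∈ C t := Finset.mem_filter.2 ⟨Finset.mem_univ _, Reachable.refl _⟩
      have hgen : ∀ a b, ∀ w : (restr G {u | u ∉ bag t}).Walk a b, a ∈ C t →
          ∀ x, a ∈ bag x → ∀ y, b ∈ bag y → (restr T (S t)).Reachable x y := by
        intro a b w
        induction w with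
        | nil => intro ha x hx y hy; exact hS1 t _ ha x hx y hy
        | @cons a b c hab q ih =>
          intro ha x hx y hy
          have hb : b ∈ C t := by
            refine Finset.mem_filter.2 ⟨Finset.mem_univ _, ?_⟩
            exact ((Finset.mem_filter.1 ha).2).trans hab.reachable
          obtain ⟨z, hz1, hz2⟩ := he a b hab.1
          exact (hS1 t a ha x hx z hz1).trans (ih hb z hz2 y hy)
      exact hgen _ _ w hmem
    have hS3 : ∀ t, ∀ x ∈ S t, ∀ y ∈ S t, (restr T (S t)).Reachable x y := by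
      rintro t x ⟨a, ha, hax⟩ y ⟨b, hb, hby⟩
      obtain ⟨wa⟩ := (Finset.mem_filter.1 ha).2
      obtain ⟨wb⟩ := (Finset.mem_filter.1 hb).2
      obtain ⟨z, hz⟩ := hv (v t)
      exact ((hS2 t a wa z hz x hax).symm).trans (hS2 t b wb z hz y hby)
    have hS4 : ∀ t t', (S t ∩ S t').Nonempty := by
      intro t t'
      have h1 : N < 2 * (C t).card := hbig t
      have h2 : N < 2 * (C t').card := hbig t'
      have h3 : ((C t) ∩ (C t')).Nonempty := by
        rw [← Finset.card_pos]
        have h4 := Finset.card_union_add_card_inter (C t) (C t')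
        have h5 : (C t ∪ C t').card ≤ N := (Finset.card_le_univ _).trans (by simp)
        omega
      obtain ⟨u, hu⟩ := h3
      obtain ⟨x, hx⟩ := hv u
      rw [Finset.mem_inter] at hu
      exact ⟨x, ⟨u, hu.1, hx⟩, ⟨u, hu.2, hx⟩⟩
    obtain ⟨t, u, hu, hut⟩ := tree_haven T hT S hS3 hS4
    exact hC t u hu hut
  obtain ⟨t, ht⟩ := key
  -- closed sets
  let closed : Finset (Fin N) → Prop := fun A =>
    (∀ u ∈ A, u ∉ bag t) ∧ ∀ u ∈ A, ∀ w, w ∉ bag t → G.Adj u w → w ∈ A
  let F : Finset (Finset (Fin N)) := Finset.univ.filter fun A => closed A ∧ N ≤ 4 * A.card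
  have hFne : F.Nonempty := by
    refine ⟨Finset.univ.filter fun u => u ∉ bag t, Finset.mem_filter.2
      ⟨Finset.mem_univ _, ⟨fun u hu => (Finset.mem_filter.1 hu).2,
        fun u _ w hw _ => Finset.mem_filter.2 ⟨Finset.mem_univ _, hw⟩⟩, ?_⟩⟩
    have h1 := Finset.card_filter_add_card_filter_not (s := (Finset.univ : Finset (Fin N)))
      (fun u => u ∈ bag t)
    have h2 : (Finset.univ.filter fun u => u ∈ bag t).card ≤ k + 1 := by
      refine le_trans (Finset.card_le_card ?_) (hw t)
      intro u hu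
      exact (Finset.mem_filter.1 hu).2
    rw [Finset.card_univ, Fintype.card_fin] at h1
    omega
  obtain ⟨A, hAF, hAmin⟩ := Finset.exists_min_image F Finset.card hFne
  obtain ⟨⟨hA1, hA2⟩, hA3⟩ := (Finset.mem_filter.1 hAF).2
  have hAhalf : 2 * A.card ≤ N := by
    by_contra hbig
    push Not at hbig
    have hAne : A.Nonempty := by
      rw [← Finset.card_pos]; omega
    obtain ⟨v, hvA⟩ := hAne
    let C := Finset.univ.filter fun u => (restr G {u | u ∉ bag t}).Reachable v u
    have hC1 : ∀ u ∈ C, u ∈ A := by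
      intro u hu
      obtain ⟨w⟩ := (Finset.mem_filter.1 hu).2
      have hgen : ∀ a b, (restr G {u | u ∉ bag t}).Walk a b → a ∈ A → b ∈ A := by
        intro a b w
        induction w with
        | nil => exact id
        | cons hab q ih => intro ha; exact ih (hA2 _ ha _ hab.2.2 hab.1)
      exact hgen _ _ w hvA
    have hCsmall : 2 * C.card ≤ N := ht v (hA1 v hvA)
    have hCclosed : closed C := by
      refine ⟨fun u hu => hA1 u (hC1 u hu), fun u hu w hw huw => ?_⟩
      refine Finset.mem_filter.2 ⟨Finset.mem_univ _, ?_⟩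
      refine ((Finset.mem_filter.1 hu).2).trans ?_
      exact (SimpleGraph.Adj.reachable ⟨huw, hA1 u (hC1 u hu), hw⟩)
    have hDclosed : closed (A \ C) := by
      refine ⟨fun u hu => hA1 u (Finset.mem_sdiff.1 hu).1, fun u hu w hw huw => ?_⟩
      rw [Finset.mem_sdiff] at hu ⊢
      refine ⟨hA2 u hu.1 w hw huw, fun hwC => hu.2 ?_⟩
      exact hCclosed.2 w hwC u (hA1 u hu.1) huw.symm
    have hvC : v ∈ C := Finset.mem_filter.2 ⟨Finset.mem_univ _, Reachable.refl _⟩
    have hcard : (A \ C).card + C.card = A.card :=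
      Finset.card_sdiff_add_card_eq_card hC1
    have hCpos : 0 < C.card := Finset.card_pos.2 ⟨v, hvC⟩
    by_cases hCbig : N ≤ 4 * C.card
    · have := hAmin C (Finset.mem_filter.2 ⟨Finset.mem_univ _, hCclosed, hCbig⟩)
      omega
    · by_cases hDbig : N ≤ 4 * (A \ C).card
      · have := hAmin (A \ C) (Finset.mem_filter.2 ⟨Finset.mem_univ _, hDclosed, hDbig⟩)
        omega
      · omega
  refine ⟨A, Finset.univ.filter fun u => u ∉ bag t ∧ u ∉ A, ?_, hA3, ?_, ?_⟩
  · rw [Finset.disjoint_left]
    intro u hu hu'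
    exact (Finset.mem_filter.1 hu').2.2 hu
  · have h1 : (Finset.univ : Finset (Fin N)) ⊆
        (Finset.univ.filter fun u => u ∉ bag t ∧ u ∉ A) ∪ (bag t ∪ A) := by
      intro u _
      by_cases h1 : u ∈ bag t
      · exact Finset.mem_union_right _ (Finset.mem_union_left _ h1)
      · by_cases h2 : u ∈ A
        · exact Finset.mem_union_right _ (Finset.mem_union_right _ h2)
        · exact Finset.mem_union_left _ (Finset.mem_filter.2 ⟨Finset.mem_univ _, h1, h2⟩)
    have h2 := Finset.card_le_card h1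
    rw [Finset.card_univ, Fintype.card_fin] at h2
    have h3 := h2.trans (Finset.card_union_le _ _)
    have h4 := Finset.card_union_le (bag t) A
    have h5 := hw t
    omega
  · intro u hu v hv' huv
    have h1 := (Finset.mem_filter.1 hv').2
    exact h1.2 (hA2 u hu v h1.1 huv)

/-- A graph without balanced separations has large treewidth. -/
lemma le_treewidth {N : ℕ} (G : SimpleGraph (Fin N))
    (h : ∀ A B : Finset (Fin N), Disjoint A B → N ≤ 4 * A.card → N ≤ 4 * B.card →
      ∃ u ∈ A, ∃ v ∈ B, G.Adj u v) : N ≤ 4 * (treewidth G + 1) := by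
  have hne : {k | HasTreeDecomposition G k}.Nonempty := by
    refine ⟨N, 1, ⊥, fun _ => Finset.univ, ?_, ?_, ?_, ?_, ?_⟩
    · exact SimpleGraph.IsTree.of_subsingleton
    · intro v; exact ⟨0, Finset.mem_univ _⟩
    · intro u v _; exact ⟨0, Finset.mem_univ _, Finset.mem_univ _⟩
    · rintro v ⟨x, hx⟩ ⟨y, hy⟩
      have : x = y := Subsingleton.elim _ _
      subst this
      exact Reachable.refl _
    · intro t; simp
  have hmem := Nat.sInf_mem hne
  by_contra hcon
  push Not at hcon
  obtain ⟨A, B, hAB, hA, hB, hno⟩ := exists_balanced G _ hmem hcon.le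
  obtain ⟨u, hu, v, hv, huv⟩ := h A B hAB hA hB
  exact hno u hu v hv huv

end Pool.Agent.W_MP_711e27_co
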