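import Mathlib
import Pool.Agent.W_MP_711e27_co.Defs
import Pool.Agent.W_MP_711e27_co.TreeDec
import Pool.Agent.W_MP_711e27_co.Random
import Pool.Agent.W_MP_711e27_co.Minor
import Pool.Agent.W_MP_711e27_co.Blocks

set_option autoImplicit false

open SimpleGraph

namespace Pool.Agent.W_MP_711e27_co

lemma log_144_le : Real.log 144 ≤ 5 := by
  rw [Real.log_le_iff_le_exp (by norm_num)]
  have h1 : Real.exp 5 = Real.exp 1 ^ 5 := by
    rw [← Real.exp_nat_mul]; norm_num
  rw [h1]
  have h2 := Real.exp_one_gt_d9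
  calc (144 : ℝ) ≤ 2.718 ^ 5 := by norm_num
    _ ≤ Real.exp 1 ^ 5 := pow_le_pow_left₀ (by norm_num) (by linarith) 5

lemma log_864_le : Real.log 864 ≤ 7 := by
  rw [Real.log_le_iff_le_exp (by norm_num)]
  have h1 : Real.exp 7 = Real.exp 1 ^ 7 := by
    rw [← Real.exp_nat_mul]; norm_num
  rw [h1]
  have h2 := Real.exp_one_gt_d9
  calc (864 : ℝ) ≤ 2.718 ^ 7 := by norm_num
    _ ≤ Real.exp 1 ^ 7 := pow_le_pow_left₀ (by norm_num) (by linarith) 7

lemma log_s_ge {s : ℕ} (hs : 1024 ≤ s) : 6.9 ≤ Real.log s := by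
  have h1 : Real.log 1024 ≤ Real.log s :=
    Real.log_le_log (by norm_num) (by exact_mod_cast hs)
  have h2 : Real.log 1024 = 10 * Real.log 2 := by
    rw [show (1024 : ℝ) = 2 ^ 10 by norm_num, Real.log_pow]
    norm_num
  have h3 := Real.log_two_gt_d9
  linarith

/-- The general bound: for `s ≥ 1024` and `n ≥ 6 s` the planar graph `H = blocks (n / s) n` on
`n` vertices has `ν(H) ≤ 2 s`, and some graph without `H` minor has treewidth
at least `n * log s / 1000`. -/
theorem general (s n : ℕ) (hs : 1024 ≤ s) (hn : 6 * s ≤ n) :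
    ∃ H : SimpleGraph (Fin n), IsPlanar H ∧ cyclePacking H ≤ 2 * s ∧
      ∃ (N : ℕ) (G : SimpleGraph (Fin N)), ¬ IsMinor H G ∧
        (n : ℝ) * Real.log s / 1000 ≤ treewidth G := by
  have hs0 : 0 < s := by omega
  set M := n / s with hMdef
  have hM : 6 ≤ M := (Nat.le_div_iff_mul_le hs0).2 hn
  have hsM : s * M ≤ n := Nat.mul_div_le n s
  have hn2 : n < s * (M + 1) := by
    have := Nat.lt_mul_div_succ n hs0
    exact this
  have hℓ := log_s_ge hs
  have hsR : (0 : ℝ) < s := by exact_mod_cast hs0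
  have hnR : (6144 : ℝ) ≤ n := by exact_mod_cast (by omega : 6144 ≤ n)
  have hMR : (6 : ℝ) ≤ M := by exact_mod_cast hM
  set ℓ := Real.log s with hℓdef
  set N := ⌊(n : ℝ) * ℓ / 200⌋₊ with hNdef
  have hNle : (N : ℝ) ≤ n * ℓ / 200 := Nat.floor_le (by positivity)
  have hNge : (n : ℝ) * ℓ / 200 < N + 1 := Nat.lt_floor_add_one _
  have hN1 : 1 ≤ N := by
    have h1 : (6144 : ℝ) * 6.9 ≤ n * ℓ := mul_le_mul hnR hℓ (by norm_num) (by positivity)
    have h2 : (1 : ℝ) ≤ N := by
      by_contra hcon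
      push Not at hcon
      have h3 : N < 1 := by exact_mod_cast hcon
      have h4 : (N : ℝ) = 0 := by
        have : N = 0 := by omega
        rw [this]; norm_num
      rw [h4] at hNge
      linarith
    exact_mod_cast h2
  have hcond : 4 * 864 ^ (N / s) * 144 ^ (M - 4) ≤ s ^ (M - 4) := by
    have hreal : (4 : ℝ) * 864 ^ (N / s) * 144 ^ (M - 4) ≤ (s : ℝ) ^ (M - 4) := by
      rw [← Real.log_le_log_iff (by positivity) (by positivity), Real.log_mul (by positivity)
        (by positivity), Real.log_mul (by positivity) (by positivity), Real.log_pow, Real.log_pow,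
        Real.log_pow, ← hℓdef]
      have hM4 : (((M - 4 : ℕ)) : ℝ) = M - 4 := by
        rw [Nat.cast_sub (by omega)]
        norm_num
      rw [hM4]
      have h1 : ((N / s : ℕ) : ℝ) ≤ (M + 1) * ℓ / 200 := by
        have h2 : ((N / s : ℕ) : ℝ) ≤ (N : ℝ) / s := Nat.cast_div_le
        refine h2.trans ?_
        rw [div_le_iff₀ hsR]
        have h3 : (n : ℝ) ≤ s * (M + 1) := by exact_mod_cast hn2.le
        have h4 : (n : ℝ) * ℓ ≤ s * (M + 1) * ℓ := mul_le_mul_of_nonneg_right h3 (by linarith)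
        linarith
      have h5 : ((N / s : ℕ) : ℝ) * Real.log 864 ≤ (M + 1) * ℓ / 200 * 7 :=
        mul_le_mul h1 log_864_le (Real.log_nonneg (by norm_num)) (by positivity)
      have h6 : Real.log 4 ≤ 1.4 := by
        have : Real.log 4 = 2 * Real.log 2 := by
          rw [show (4 : ℝ) = 2 ^ 2 by norm_num, Real.log_pow]; norm_num
        have := Real.log_two_lt_d9
        linarith
      have h7 : ((M : ℝ) - 4) * Real.log 144 ≤ (M - 4) * 5 :=
        mul_le_mul_of_nonneg_left log_144_le (by linarith)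
      have h8 : (M : ℝ) + 1 ≤ 3.5 * (M - 4) := by linarith
      have h9 : ((M : ℝ) + 1) * ℓ ≤ 3.5 * (M - 4) * ℓ := mul_le_mul_of_nonneg_right h8 (by linarith)
      have h10 : 0.8775 * 6.9 * ((M : ℝ) - 4) ≤ 0.8775 * ℓ * (M - 4) := by
        apply mul_le_mul_of_nonneg_right _ (by linarith)
        linarith
      nlinarith
    exact_mod_cast hreal
  obtain ⟨G, hG1, hG2⟩ := exists_graph N s M n hN1 (by omega) (by omega) hsM hcond
  refine ⟨blocks M n, isPlanar_blocks (by omega), cyclePacking_blocks_le (by omega) ?_, N, G, hG1,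
    ?_⟩
  · have : s * (M + 1) ≤ 2 * s * M := by nlinarith
    omega
  · have h1 := le_treewidth G hG2
    have h2 : (N : ℝ) ≤ 4 * ((treewidth G : ℝ) + 1) := by exact_mod_cast h1
    have h3 : (6144 : ℝ) * 6.9 ≤ n * ℓ := mul_le_mul hnR hℓ (by norm_num) (by positivity)
    linarith

end Pool.Agent.W_MP_711e27_co
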